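import Mathlib

namespace Pool.Agent.Results.MP_2a1499_al.No

open Submodule

universe u

variable {k : Type u} [Field k] {n r : ℕ} {s t : Fin r → Fin n}

/-- Finite-dimensional representations of the quiver with vertices `Fin n`, arrows `Fin r`,
source `s` and target `t`. -/
structure Rep (k : Type u) [Field k] {n r : ℕ} (s t : Fin r → Fin n) where
  d : Fin n → ℕ
  f : ∀ a, (Fin (d (s a)) → k) →ₗ[k] (Fin (d (t a)) → k)

/-- Families of linear maps, one for each vertex. -/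
def Fam (M N : Rep k s t) : Type u := ∀ v, (Fin (M.d v) → k) →ₗ[k] (Fin (N.d v) → k)

instance famGroup (M N : Rep k s t) : AddCommGroup (Fam M N) := Pi.addCommGroup

instance famModule (M N : Rep k s t) : Module k (Fam M N) := Pi.module _ _ _

/-- Vertexwise composition. -/
def comp {L M N : Rep k s t} (β : Fam M N) (α : Fam L M) : Fam L N := fun v => β v ∘ₗ α v

/-- The identity. -/
def one (M : Rep k s t) : Fam M M := fun _ => LinearMap.id

/-- Morphisms of representations. -/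
def Hom (M N : Rep k s t) : Submodule k (Fam M N) where
  carrier := {φ | ∀ a, φ (t a) ∘ₗ M.f a = N.f a ∘ₗ φ (s a)}
  add_mem' := fun {x y} h h' a => by
    change (x (t a) + y (t a)) ∘ₗ M.f a = N.f a ∘ₗ (x (s a) + y (s a))
    rw [LinearMap.add_comp, LinearMap.comp_add, h a, h' a]
  zero_mem' := fun a => by
    change 0 ∘ₗ M.f a = N.f a ∘ₗ 0
    simp
  smul_mem' := fun c x h a => by
    change (c • x (t a)) ∘ₗ M.f a = N.f a ∘ₗ (c • x (s a))
    rw [LinearMap.smul_comp, LinearMap.comp_smul, h a]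

/-- `Ext¹(M, N) = 0`: every short exact sequence `0 → N → E → M → 0` splits. -/
def ExtZero (M N : Rep k s t) : Prop :=
  ∀ (E : Rep k s t), ∀ i ∈ Hom N E, ∀ p ∈ Hom E M,
    (∀ v, Function.Injective (i v) ∧ Function.Exact (i v) (p v) ∧ Function.Surjective (p v)) →
    ∃ σ ∈ Hom M E, comp p σ = one M

/-- Indecomposable: nonzero, with no idempotent endomorphism besides `0` and `1`. -/
def Indec (M : Rep k s t) : Prop :=
  M.d ≠ 0 ∧ ∀ φ ∈ Hom M M, comp φ φ = φ → φ = 0 ∨ φ = one M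

/-- The radical between indecomposables: the span of the non-isomorphisms. -/
def rad (M N : Rep k s t) : Submodule k (Fam M N) :=
  span k {φ | φ ∈ Hom M N ∧ ¬ ∀ v, Function.Bijective (φ v)}

variable {m : ℕ} (X : Fin m → Rep k s t)

/-- Morphisms factoring radically through a member of the collection. -/
def rad2 (i j : Fin m) : Submodule k (Fam (X i) (X j)) :=
  span k {φ | ∃ l, ∃ α ∈ rad (X i) (X l), ∃ β ∈ rad (X l) (X j), φ = comp β α}

/-- The family `f` lies in `U` and gives a basis of `U` modulo `W`. -/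
def BasisMod {V ι : Type u} [AddCommGroup V] [Module k V] (U W : Submodule k V) (f : ι → V) :
    Prop :=
  (∀ a, f a ∈ U) ∧ LinearIndependent k (fun a => W.mkQ (f a)) ∧ U ≤ span k (Set.range f) ⊔ W

variable (G : Quiver.{u} (Fin m)) (e : ∀ i j, G.Hom i j → Fam (X i) (X j))

/-- The arrows `i ⟶ j` of `G` are sent to a basis of `rad / rad2`. -/
def Pres : Prop := ∀ i j, BasisMod (rad (X i) (X j)) (rad2 X i j) (e i j)

/-- The morphism given by a path of `G`. -/
def ev {i : Fin m} : ∀ {j : Fin m}, @Quiver.Path _ G i j → Fam (X i) (X j)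
  | _, .nil => one _
  | _, .cons p a => comp (e _ _ a) (ev p)

/-- The ideal of relations is the two-sided ideal generated by a set of paths of length `≥ 2`. -/
def Monomial : Prop :=
  ∃ S : ∀ i j, Set (@Quiver.Path _ G i j), (∀ i j, ∀ q ∈ S i j, 2 ≤ q.length) ∧
    ∀ i j, LinearMap.ker (Finsupp.linearCombination k (ev X G e : @Quiver.Path _ G i j → _)) =
      span k {x | ∃ a b, ∃ p : @Quiver.Path _ G i a, ∃ q ∈ S a b, ∃ w : @Quiver.Path _ G b j,
        x = Finsupp.single (p.comp (q.comp w)) 1}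

/-- all-ones map -/
def J (k : Type u) [Field k] (a b : ℕ) : (Fin a → k) →ₗ[k] (Fin b → k) :=
  LinearMap.pi fun _ => ∑ j, LinearMap.proj j

lemma J_apply (a b : ℕ) (x : Fin a → k) (i : Fin b) : J k a b x i = ∑ j, x j := by
  simp [J]

lemma J_comp (a b c : ℕ) : J k b c ∘ₗ J k a b = (b : k) • J k a c := by
  refine LinearMap.ext fun x => funext fun i => ?_
  simp [J_apply]

def sc {a b : ℕ} (φ : (Fin a → k) →ₗ[k] (Fin b → k)) : k := ∑ i, φ (fun _ => 1) i

lemma sc_J (a b : ℕ) (c : k) : sc (c • J k a b) = c * a * b := by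
  simp [sc, J_apply]; ring

lemma eq_sc {a b : ℕ} (ha : a ≤ 1) (hb : b ≤ 1) (φ : (Fin a → k) →ₗ[k] (Fin b → k)) :
    φ = sc φ • J k a b := by
  refine LinearMap.ext fun x => funext fun i => ?_
  rcases Nat.le_one_iff_eq_zero_or_eq_one.1 hb with rfl | rfl
  · exact i.elim0
  rcases Nat.le_one_iff_eq_zero_or_eq_one.1 ha with rfl | rfl
  · have : x = 0 := funext fun j => j.elim0
    rw [this, map_zero, map_zero]
  · have hx : x = x 0 • (fun _ => (1 : k)) := funext fun j => by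
      rw [Subsingleton.elim j 0]; simp
    have hi : i = 0 := Subsingleton.elim _ _
    subst hi
    have : φ x 0 = x 0 * φ (fun _ => 1) 0 := by
      conv_lhs => rw [hx, map_smul]
      simp
    simp [sc, J_apply, this, mul_comm]

lemma smul_J_eq {a b : ℕ} (c c' : k) (h : c * a * b = c' * a * b) (ha : a ≤ 1) (hb : b ≤ 1) :
    c • J k a b = c' • J k a b := by
  rw [eq_sc ha hb (c • J k a b), eq_sc ha hb (c' • J k a b), sc_J, sc_J, h]

lemma J_id {a : ℕ} (ha : a ≤ 1) : J k a a = LinearMap.id := by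
  refine LinearMap.ext fun x => funext fun i => ?_
  rcases Nat.le_one_iff_eq_zero_or_eq_one.1 ha with rfl | rfl
  · exact i.elim0
  · rw [Subsingleton.elim i 0]; simp [J_apply]

lemma extZero_of (M N : Rep k s t)
    (h : ∀ δ : ∀ a, (Fin (M.d (s a)) → k) →ₗ[k] (Fin (N.d (t a)) → k), ∃ g : Fam M N,
      ∀ a, δ a = N.f a ∘ₗ g (s a) - g (t a) ∘ₗ M.f a) : ExtZero M N := by
  intro E i hi p hp H
  choose σ hσ using fun v => (p v).exists_rightInverse_of_surjective
    (LinearMap.range_eq_top.2 (H v).2.2)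
  choose ρ hρ using fun v => (i v).exists_leftInverse_of_injective
    (LinearMap.ker_eq_bot.2 (H v).1)
  obtain ⟨g, hg⟩ := h fun a => ρ (t a) ∘ₗ (E.f a ∘ₗ σ (s a) - σ (t a) ∘ₗ M.f a)
  have hpi : ∀ v x, p v (i v x) = 0 := fun v x => ((H v).2.1 _).2 ⟨x, rfl⟩
  have hs : ∀ v x, p v (σ v x) = x := fun v x => LinearMap.congr_fun (hσ v) x
  have hr : ∀ v x, ρ v (i v x) = x := fun v x => LinearMap.congr_fun (hρ v) x
  refine ⟨fun v => σ v - i v ∘ₗ g v, fun a => ?_, funext fun v => ?_⟩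
  · refine LinearMap.ext fun x => ?_
    have h1 : p (t a) (E.f a (σ (s a) x) - σ (t a) (M.f a x)) = 0 := by
      have := LinearMap.congr_fun (hp a) (σ (s a) x)
      simp only [LinearMap.comp_apply] at this
      rw [map_sub, this, hs, hs, sub_self]
    obtain ⟨y, hy⟩ := ((H (t a)).2.1 _).1 h1
    have h2 := LinearMap.congr_fun (hg a) x
    simp only [LinearMap.comp_apply, LinearMap.sub_apply] at h2
    rw [← hy, hr] at h2
    have h3 := LinearMap.congr_fun (hi a) (g (s a) x)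
    simp only [LinearMap.comp_apply] at h3
    simp only [LinearMap.comp_apply, LinearMap.sub_apply, map_sub]
    rw [h2, map_sub, h3] at hy
    linear_combination (exp := 1) hy
  · refine LinearMap.ext fun x => ?_
    simp [comp, one, hs, hpi]

lemma exists_basis {V : Type u} [AddCommGroup V] [Module k V] (U W : Submodule k V) :
    ∃ (ι : Type u) (f : ι → V), BasisMod U W f := by
  obtain ⟨b, hb, hs, hl⟩ := exists_linearIndependent k (W.mkQ '' (U : Set V))
  choose f hf hf' using fun x : b => hb x.2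
  refine ⟨b, f, hf, by simpa [hf'] using hl, fun x hx => ?_⟩
  have h1 : W.mkQ x ∈ span k b := hs ▸ subset_span ⟨x, hx, rfl⟩
  have h2 : span k b ≤ (span k (Set.range f)).map W.mkQ := by
    refine span_le.2 fun y hy => ⟨f ⟨y, hy⟩, subset_span ⟨_, rfl⟩, hf' _⟩
  obtain ⟨y, hy, hxy⟩ := h2 h1
  have : x - y ∈ W := by
    rw [← Submodule.Quotient.eq]; exact hxy.symm
  have e : x = y + (x - y) := by abel
  rw [e]
  exact add_mem_sup hy this

lemma rad_le (M N : Rep k s t) : rad M N ≤ Hom M N := span_le.2 fun _ h => h.1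

lemma comp_mem {L M N : Rep k s t} {α : Fam L M} {β : Fam M N} (hα : α ∈ Hom L M)
    (hβ : β ∈ Hom M N) : comp β α ∈ Hom L N := fun a => by
  change (β (t a) ∘ₗ α (t a)) ∘ₗ L.f a = N.f a ∘ₗ (β (s a) ∘ₗ α (s a))
  rw [LinearMap.comp_assoc, hα a, ← LinearMap.comp_assoc, hβ a, LinearMap.comp_assoc]

def dd : Fin 4 → Fin 4 → ℕ := ![![1, 0, 0, 1], ![1, 0, 1, 1], ![1, 1, 0, 1], ![0, 0, 0, 1]]

abbrev Y (k : Type u) [Field k] (i : Fin 4) : Rep k Fin.succ (fun _ : Fin 3 => (0 : Fin 4)) :=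
  ⟨dd i, fun _ => J k _ _⟩

lemma dd_le (i v : Fin 4) : dd i v ≤ 1 := by revert i v; decide

lemma dd3 (i : Fin 4) : dd i 3 = 1 := by revert i; decide

lemma sc_comp {a b c : ℕ} (ha : a ≤ 1) (hb : b ≤ 1) (hc : c ≤ 1)
    (α : (Fin a → k) →ₗ[k] (Fin b → k)) (β : (Fin b → k) →ₗ[k] (Fin c → k)) :
    β ∘ₗ α = (sc β * sc α * b) • J k a c := by
  conv_lhs => rw [eq_sc ha hb α, eq_sc hb hc β]
  rw [LinearMap.smul_comp, LinearMap.comp_smul, J_comp, smul_smul, smul_smul]

lemma sc_J1 (a b : ℕ) : sc (J k a b) = (a : k) * b := by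
  have := sc_J (k := k) a b 1
  rwa [one_smul, one_mul] at this

lemma hom_iff (i j : Fin 4) (φ : Fam (Y k i) (Y k j)) : φ ∈ Hom (Y k i) (Y k j) ↔
    ∀ a : Fin 3, sc (φ 0) * (dd i a.succ * dd i 0) * dd i 0 * dd i a.succ * dd j 0 =
      (dd j a.succ * dd j 0) * sc (φ a.succ) * dd j a.succ * dd i a.succ * dd j 0 := by
  refine forall_congr' fun a => ?_
  change φ 0 ∘ₗ J k (dd i a.succ) (dd i 0) = J k (dd j a.succ) (dd j 0) ∘ₗ φ a.succ ↔ _
  rw [sc_comp (dd_le _ _) (dd_le _ _) (dd_le _ _), sc_comp (dd_le _ _) (dd_le _ _) (dd_le _ _),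
    sc_J1, sc_J1]
  constructor
  · intro h
    have := congrArg sc h
    rwa [sc_J, sc_J] at this
  · intro h
    exact smul_J_eq _ _ h (dd_le _ _) (dd_le _ _)

lemma scal (i j : Fin 4) (x : Fin 4 → k) (hs : ∀ v, x v = x v * dd i v * dd j v)
    (h : ∀ a : Fin 3, x 0 * (dd i a.succ * dd i 0) * dd i 0 * dd i a.succ * dd j 0 =
      (dd j a.succ * dd j 0) * x a.succ * dd j a.succ * dd i a.succ * dd j 0) :
    (x 3 = 0 → ∀ v, x v = 0) ∧ (¬ (i = j ∨ i = 0 ∨ j = 3) → x 3 = 0) := by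
  have h0 := h 0
  have h1 := h 1
  have h2 := h 2
  have s0 := hs 0
  have s1 := hs 1
  have s2 := hs 2
  have s3 := hs 3
  clear h hs
  simp only [Fin.forall_fin_succ]
  fin_cases i <;> fin_cases j <;> simp [dd] at h0 h1 h2 s0 s1 s2 s3 ⊢ <;> simp_all

def cc {i j : Fin 4} (φ : Fam (Y k i) (Y k j)) : k := sc (φ 3)

lemma scal' {i j : Fin 4} {φ : Fam (Y k i) (Y k j)} (h : φ ∈ Hom (Y k i) (Y k j)) :
    (cc φ = 0 → φ = 0) ∧ (¬ (i = j ∨ i = 0 ∨ j = 3) → φ = 0) := by
  have hs := scal i j (fun v => sc (φ v)) (fun v => by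
    conv_lhs => rw [eq_sc (dd_le i v) (dd_le j v) (φ v)]
    exact sc_J _ _ _) ((hom_iff i j φ).1 h)
  have h1 : cc φ = 0 → φ = 0 := fun h0 => funext fun v => by
    rw [eq_sc (dd_le i v) (dd_le j v) (φ v), hs.1 h0 v, zero_smul]; rfl
  exact ⟨h1, fun hb => h1 (hs.2 hb)⟩

lemma cc_comp {i j l : Fin 4} (α : Fam (Y k i) (Y k j)) (β : Fam (Y k j) (Y k l)) :
    cc (comp β α) = cc β * cc α := by
  change sc (β 3 ∘ₗ α 3) = sc (β 3) * sc (α 3)
  rw [sc_comp (dd_le _ _) (dd_le _ _) (dd_le _ _), sc_J]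
  change _ * (dd j 3 : k) * dd i 3 * dd l 3 = _
  simp [dd3]

lemma cc_lin {i j : Fin 4} (a b : k) (α β : Fam (Y k i) (Y k j)) :
    cc (a • α - b • β) = a * cc α - b * cc β := by
  change sc (a • α 3 - b • β 3) = a * sc (α 3) - b * sc (β 3)
  simp [sc, Finset.mul_sum]

lemma cc_zero {i j : Fin 4} : cc (0 : Fam (Y k i) (Y k j)) = 0 := by
  change sc 0 = 0
  simp [sc]

def gg (k : Type u) [Field k] (i j : Fin 4) : Fam (Y k i) (Y k j) := fun _ => J k _ _

lemma cc_J (i j : Fin 4) : cc (gg k i j) = 1 := by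
  change sc (J k (dd i 3) (dd j 3)) = 1
  rw [sc_J1]; simp [dd3]

lemma J_mem (i j : Fin 4) (h : i = j ∨ i = 0 ∨ j = 3) :
    gg k i j ∈ Hom (Y k i) (Y k j) := by
  rw [hom_iff]
  intro a
  change sc (J k (dd i 0) (dd j 0)) * _ * _ * _ * _ =
    _ * sc (J k (dd i a.succ) (dd j a.succ)) * _ * _ * _
  rw [sc_J1, sc_J1]
  fin_cases i <;> fin_cases j <;> fin_cases a <;> simp [dd] at h ⊢

lemma end_eq {i : Fin 4} {φ : Fam (Y k i) (Y k i)} (h : φ ∈ Hom (Y k i) (Y k i)) :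
    φ = cc φ • one (Y k i) := by
  have h1 : one (Y k i) = gg k i i :=
    funext fun v => (J_id (dd_le i v)).symm
  rw [h1]
  have h2 := (scal' (sub_mem (smul_mem _ 1 h) (smul_mem _ (cc φ) (J_mem i i (Or.inl rfl))))).1
    (by rw [cc_lin, cc_J]; ring)
  rwa [one_smul, sub_eq_zero] at h2

lemma rad_self (i : Fin 4) : rad (Y k i) (Y k i) = ⊥ := by
  refine span_eq_bot.2 fun φ h => (scal' h.1).1 ?_
  by_contra hc
  refine h.2 fun v => ?_
  rw [end_eq h.1]
  exact (LinearEquiv.smulOfNeZero k _ _ hc).bijective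

lemma rad_bad (i j : Fin 4) (h : ¬ (i = j ∨ i = 0 ∨ j = 3)) : rad (Y k i) (Y k j) = ⊥ :=
  span_eq_bot.2 fun _ hφ => (scal' hφ.1).2 h

lemma indec (i : Fin 4) : Indec (Y k i) := by
  refine ⟨fun h => ?_, fun φ h hφ => ?_⟩
  · have : dd i 3 = 0 := congrFun h 3
    rw [dd3] at this; exact one_ne_zero this
  · have h1 := cc_comp φ φ
    rw [hφ] at h1
    by_cases hc : cc φ = 0
    · exact Or.inl ((scal' h).1 hc)
    · right
      have : cc φ = 1 := mul_left_cancel₀ hc (by rw [← h1, mul_one])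
      rw [end_eq h, this, one_smul]

lemma scal2 (i j : Fin 4) (x : Fin 3 → k) (hs : ∀ a, x a = x a * dd i a.succ * dd j 0)
    (c0 : k) (hc : c0 = -∑ a : Fin 3, (1 - dd j a.succ : k) * x a) (a : Fin 3) :
    x a * dd i a.succ * dd j 0 =
      ((x a + c0 * dd i 0) * dd j a.succ - c0 * dd i 0) * dd i a.succ * dd j 0 := by
  have s0 := hs 0
  have s1 := hs 1
  have s2 := hs 2
  rw [hc, Fin.sum_univ_three]
  clear hs hc
  fin_cases i <;> fin_cases j <;> fin_cases a <;> simp [dd] at s0 s1 s2 ⊢ <;> simp_all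

lemma ext_zero (i j : Fin 4) : ExtZero (Y k i) (Y k j) := by
  refine extZero_of _ _ fun δ => ?_
  obtain ⟨c0, hc0⟩ : ∃ c0 : k, c0 = -∑ a : Fin 3, (1 - dd j a.succ : k) * sc (δ a) := ⟨_, rfl⟩
  refine ⟨fun v => (Fin.cases c0 (fun a => sc (δ a) + c0 * dd i 0) v : k) • J k _ _, fun a => ?_⟩
  have hs : ∀ a : Fin 3, sc (δ a) = sc (δ a) * dd i a.succ * dd j 0 := fun a => by
    conv_lhs => rw [eq_sc (dd_le i a.succ) (dd_le j 0) (δ a)]
    exact sc_J _ _ _
  change δ a = J k (dd j a.succ) (dd j 0) ∘ₗ ((sc (δ a) + c0 * dd i 0) • J k (dd i a.succ) _) -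
    (c0 • J k (dd i 0) (dd j 0)) ∘ₗ J k (dd i a.succ) _
  rw [LinearMap.smul_comp, LinearMap.comp_smul, J_comp, J_comp, smul_smul, smul_smul, ← sub_smul]
  exact (eq_sc (dd_le i a.succ) (dd_le j 0) (δ a)).trans
    (smul_J_eq _ _ (scal2 i j (fun a => sc (δ a)) hs c0 hc0 a) (dd_le _ _) (dd_le _ _))

lemma rad2_bot (i j : Fin 4)
    (h : ∀ l, l = i ∨ l = j ∨ ¬ (i = l ∨ i = 0 ∨ l = 3) ∨ ¬ (l = j ∨ l = 0 ∨ j = 3)) :
    rad2 (Y k) i j = ⊥ := by
  refine span_eq_bot.2 ?_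
  rintro _ ⟨l, α, hα, β, hβ, rfl⟩
  have : α = 0 ∨ β = 0 := by
    rcases h l with rfl | rfl | h | h
    · rw [rad_self] at hα; exact Or.inl hα
    · rw [rad_self] at hβ; exact Or.inr hβ
    · rw [rad_bad _ _ h] at hα; exact Or.inl hα
    · rw [rad_bad _ _ h] at hβ; exact Or.inr hβ
  rcases this with rfl | rfl <;> funext v
  · exact LinearMap.comp_zero _
  · exact LinearMap.zero_comp _

lemma J_rad (i j : Fin 4) (h : i = j ∨ i = 0 ∨ j = 3) (v : Fin 4) (hv : dd i v ≠ dd j v) :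
    gg k i j ∈ rad (Y k i) (Y k j) := by
  refine subset_span ⟨J_mem i j h, fun hb => hv ?_⟩
  have := (LinearEquiv.ofBijective _ (hb v)).finrank_eq
  simpa using this

lemma arrow {G : Quiver.{u} (Fin 4)} {e : ∀ i j, G.Hom i j → Fam (Y k i) (Y k j)}
    (hP : Pres (Y k) G e) (i j : Fin 4) (h : i = j ∨ i = 0 ∨ j = 3) (v : Fin 4)
    (hv : dd i v ≠ dd j v)
    (h2 : ∀ l, l = i ∨ l = j ∨ ¬ (i = l ∨ i = 0 ∨ l = 3) ∨ ¬ (l = j ∨ l = 0 ∨ j = 3)) :
    ∃ a : G.Hom i j, cc (e i j a) ≠ 0 := by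
  by_contra hc
  push Not at hc
  have h0 : span k (Set.range (e i j)) = ⊥ := span_eq_bot.2 (by
    rintro _ ⟨a, rfl⟩
    exact (scal' (rad_le _ _ ((hP i j).1 a))).1 (hc a))
  have h1 := (hP i j).2.2 (J_rad i j h v hv)
  rw [h0, rad2_bot i j h2, sup_idem, mem_bot] at h1
  have h3 := cc_J (k := k) i j
  rw [h1, cc_zero] at h3
  exact zero_ne_one h3

lemma not_mono {G : Quiver.{u} (Fin 4)} {e : ∀ i j, G.Hom i j → Fam (Y k i) (Y k j)}
    (hP : Pres (Y k) G e) : ¬ Monomial (Y k) G e := by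
  classical
  rintro ⟨S, -, hS⟩
  obtain ⟨a, ha⟩ := arrow hP 0 1 (by decide) 2 (by decide) (by decide)
  obtain ⟨b, hb⟩ := arrow hP 1 3 (by decide) 0 (by decide) (by decide)
  obtain ⟨c, hc⟩ := arrow hP 0 2 (by decide) 1 (by decide) (by decide)
  obtain ⟨d, hd⟩ := arrow hP 2 3 (by decide) 0 (by decide) (by decide)
  let p : @Quiver.Path _ G 0 3 := (Quiver.Path.nil.cons a).cons b
  let q : @Quiver.Path _ G 0 3 := (Quiver.Path.nil.cons c).cons d
  have hpq : p ≠ q := fun h => absurd (Quiver.Path.obj_eq_of_cons_eq_cons h) (by decide)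
  have hm : ∀ i j (a : G.Hom i j), e i j a ∈ Hom (Y k i) (Y k j) :=
    fun i j a => rad_le _ _ ((hP i j).1 a)
  have ep : ev (Y k) G e p = comp (e 1 3 b) (e 0 1 a) := rfl
  have eq : ev (Y k) G e q = comp (e 2 3 d) (e 0 2 c) := rfl
  have cp : cc (ev (Y k) G e p) ≠ 0 := by rw [ep, cc_comp]; exact mul_ne_zero hb ha
  have cq : cc (ev (Y k) G e q) ≠ 0 := by rw [eq, cc_comp]; exact mul_ne_zero hd hc
  have hx : Finsupp.single p (cc (ev (Y k) G e q)) - Finsupp.single q (cc (ev (Y k) G e p)) ∈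
      LinearMap.ker (Finsupp.linearCombination k (ev (Y k) G e : @Quiver.Path _ G 0 3 → _)) := by
    rw [LinearMap.mem_ker, map_sub, Finsupp.linearCombination_single,
      Finsupp.linearCombination_single]
    refine (scal' (sub_mem (smul_mem _ _ ?_) (smul_mem _ _ ?_))).1 (by rw [cc_lin]; ring)
    · rw [ep]; exact comp_mem (hm _ _ a) (hm _ _ b)
    · rw [eq]; exact comp_mem (hm _ _ c) (hm _ _ d)
  have hle : LinearMap.ker (Finsupp.linearCombination k
      (ev (Y k) G e : @Quiver.Path _ G 0 3 → _)) ≤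
      Finsupp.supported k k {w | ev (Y k) G e w = 0} := by
    rw [Finsupp.supported_eq_span_single]
    refine (hS 0 3).le.trans (span_mono ?_)
    intro x hx
    have hx' := (hS 0 3).ge (subset_span hx)
    obtain ⟨_, _, p', q', -, w, rfl⟩ := hx
    refine ⟨_, ?_, rfl⟩
    rw [LinearMap.mem_ker, Finsupp.linearCombination_single, one_smul] at hx'
    exact hx'
  have h0 := (Finsupp.mem_supported' k _).1 (hle hx) p (fun h => cp (by
    rw [Set.mem_setOf_eq] at h
    rw [h, cc_zero]))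
  rw [Finsupp.sub_apply, Finsupp.single_eq_same, Finsupp.single_eq_of_ne hpq, sub_zero] at h0
  exact cq h0

theorem result (k : Type u) [Field k] :
    ∃ (n r : ℕ) (s t : Fin r → Fin n),
      (∀ v, ¬ Relation.TransGen (fun x y => ∃ a, s a = x ∧ t a = y) v v) ∧
      ∃ (m : ℕ) (X : Fin m → Rep k s t),
        (∀ i, Indec (X i)) ∧ (∀ i j, j < i → Hom (X i) (X j) = ⊥) ∧
        (∀ i j, ExtZero (X i) (X j)) ∧ (∃ G e, Pres X G e) ∧
        ∀ G e, Pres X G e → ¬ Monomial X G e := by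
  refine ⟨4, 3, Fin.succ, fun _ => 0, fun v hv => ?_, 4, Y k, indec, fun i j hij => ?_, ext_zero,
    ?_, fun G e => not_mono⟩
  · have h1 : ∀ x y : Fin 4, Relation.TransGen
        (fun x y => ∃ a : Fin 3, a.succ = x ∧ (0 : Fin 4) = y) x y → y < x := by
      intro x y h
      induction h with
      | single h => obtain ⟨a, rfl, rfl⟩ := h; exact Fin.succ_pos a
      | tail _ h ih => obtain ⟨a, rfl, rfl⟩ := h; exact (Fin.succ_pos a).trans ih
    exact lt_irrefl _ (h1 v v hv)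
  · refine (Submodule.eq_bot_iff _).2 fun φ h => (scal' h).2 ?_
    clear h φ
    revert i j; decide
  · choose ι f h using fun i j => exists_basis (rad (Y k i) (Y k j)) (rad2 (Y k) i j)
    exact ⟨⟨ι⟩, f, h⟩

end Pool.Agent.Results.MP_2a1499_al.No
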